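import Pool.Agent.Helper63.P705.BS.Goals

/-!
# MP_705522_gt: the power-decay constants beyond `64` (goal `BF`)
-/

namespace Pool.Agent.Helper63.BS

open Pool.Agent.Helper53.PT (mo m3 f0 f1 f2 tk Nn AA AB FP GTP GSN GNI GFI sg)
open Pool.Agent.Helper63.P705

theorem cd_ge (x y : ℕ) : (x : ℝ) / y ≤ (cd x y : ℕ) := by
  rcases Nat.eq_zero_or_pos y with hy | hy
  · subst hy; simp
  · rw [div_le_iff₀ (by exact_mod_cast hy)]
    have h : x ≤ cd x y * y := by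
      show x ≤ (x + (y - 1)) / y * y
      have := Nat.div_add_mod (x + (y - 1)) y
      have h2 := Nat.mod_lt (x + (y - 1)) hy
      rw [mul_comm]
      omega
    exact_mod_cast h

theorem shl_cast (x k : ℕ) : ((Nat.shiftLeft x k : ℕ) : ℝ) = x * 2 ^ k := by
  have : Nat.shiftLeft x k = x * 2 ^ k := Nat.shiftLeft_eq x k
  rw [this]; push_cast; ring

theorem shr_le (x k : ℕ) : ((Nat.shiftRight x k : ℕ) : ℝ) ≤ x / 2 ^ k := by
  have : Nat.shiftRight x k = x / 2 ^ k := Nat.shiftRight_eq_div_pow x k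
  rw [this]
  have h := @Nat.cast_div_le ℝ _ _ _ x (2 ^ k)
  simpa using h

/-- multiplication by `y ≤ B / a` -/
theorem stepM {X y : ℝ} {m B a : ℕ} (hX : 0 ≤ X) (hm : 2 ^ 60 * X ≤ m) (hy : y ≤ (B : ℝ) / a) :
    2 ^ 60 * (y * X) ≤ (cd (Nat.mul m B) a : ℕ) := by
  refine le_trans ?_ (cd_ge _ _)
  have h : ((Nat.mul m B : ℕ) : ℝ) = m * B := by
    show ((m * B : ℕ) : ℝ) = _; push_cast; ring
  rw [h]
  calc 2 ^ 60 * (y * X) = y * (2 ^ 60 * X) := by ring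
    _ ≤ ((B : ℝ) / a) * (2 ^ 60 * X) := by
      apply mul_le_mul_of_nonneg_right hy (by positivity)
    _ ≤ ((B : ℝ) / a) * m := mul_le_mul_of_nonneg_left hm (by positivity)
    _ = m * B / a := by ring

/-- division by `W ≥ w / 2^60` -/
theorem stepD {X W : ℝ} {m w : ℕ} (_hX : 0 ≤ X) (hm : 2 ^ 60 * X ≤ m) (hw : 0 < w)
    (hW : (w : ℝ) ≤ 2 ^ 60 * W) : 2 ^ 60 * (X / W) ≤ (cd (Nat.shiftLeft m 60) w : ℕ) := by
  refine le_trans ?_ (cd_ge _ _)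
  rw [shl_cast]
  have hw' : (0 : ℝ) < w := by exact_mod_cast hw
  have hW0 : 0 < W := by
    by_contra h
    have : (2 : ℝ) ^ 60 * W ≤ 0 := by
      have : W ≤ 0 := not_lt.mp h
      nlinarith
    linarith
  rw [← mul_div_assoc, div_le_div_iff₀ hW0 hw']
  calc 2 ^ 60 * X * w ≤ m * (2 ^ 60 * W) := by
        apply mul_le_mul hm hW hw'.le (by positivity)
    _ = m * 2 ^ 60 * W := by ring

/-- the last division -/
theorem stepN {X N D : ℝ} {m nL d : ℕ} (hX : 0 ≤ X) (hm : 2 ^ 60 * X ≤ m) (hn : 0 < nL)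
    (hN : (nL : ℝ) ≤ 2 ^ 60 * N) (hd : (d : ℝ) = D) (hd0 : 0 < D) :
    X / (D * N) ≤ (cd (Nat.shiftLeft m 40) (Nat.mul d nL) : ℕ) / 2 ^ 40 := by
  have h := cd_ge (Nat.shiftLeft m 40) (Nat.mul d nL)
  rw [shl_cast] at h
  have h2 : ((Nat.mul d nL : ℕ) : ℝ) = D * nL := by
    show ((d * nL : ℕ) : ℝ) = _; push_cast; rw [hd]
  rw [h2] at h
  have hn' : (0 : ℝ) < nL := by exact_mod_cast hn
  have hN0 : 0 < N := by
    by_contra h
    have : (2 : ℝ) ^ 60 * N ≤ 0 := by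
      have : N ≤ 0 := not_lt.mp h
      nlinarith
    linarith
  rw [le_div_iff₀ (by positivity)]
  refine le_trans ?_ h
  rw [div_mul_eq_mul_div, div_le_div_iff₀ (by positivity) (by positivity)]
  have h3 : X * nL ≤ m * N := by
    have h4 : X * nL ≤ X * (2 ^ 60 * N) := mul_le_mul_of_nonneg_left hN hX
    have h5 : 2 ^ 60 * X * N ≤ m * N := mul_le_mul_of_nonneg_right hm hN0.le
    nlinarith
  have h6 : X * 2 ^ 40 * (D * nL) = (X * nL) * (2 ^ 40 * D) := by ring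
  have h7 : (m : ℝ) * 2 ^ 40 * (D * N) = (m * N) * (2 ^ 40 * D) := by ring
  rw [h6, h7]
  exact mul_le_mul_of_nonneg_right h3 (by positivity)

theorem gp0 (a σ : ℝ) : Real.Gamma (a + (0 : ℕ)) * σ ^ (-(a + (0 : ℕ))) = Real.Gamma a * σ ^ (-a) := by
  simp

theorem gp1 {a σ : ℝ} (ha : 0 < a) (hσ : 0 < σ) :
    Real.Gamma (a + (1 : ℕ)) * σ ^ (-(a + (1 : ℕ))) = a * (Real.Gamma a * σ ^ (-a)) / σ := by
  have h1 : Real.Gamma (a + (1 : ℕ)) = a * Real.Gamma a := by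
    rw [Nat.cast_one, Real.Gamma_add_one ha.ne']
  have h2 : σ ^ (-(a + (1 : ℕ))) = σ ^ (-a) / σ := by
    rw [Nat.cast_one, neg_add, ← sub_eq_add_neg, Real.rpow_sub hσ, Real.rpow_one]
  rw [h1, h2]; ring

theorem gp2 {a σ : ℝ} (ha : 0 < a) (hσ : 0 < σ) :
    Real.Gamma (a + (2 : ℕ)) * σ ^ (-(a + (2 : ℕ))) =
      (a + 1) * (a * (Real.Gamma a * σ ^ (-a))) / σ ^ 2 := by
  have h1 : Real.Gamma (a + (2 : ℕ)) = (a + 1) * (a * Real.Gamma a) := by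
    have : a + ((2 : ℕ) : ℝ) = (a + 1) + 1 := by push_cast; ring
    rw [this, Real.Gamma_add_one (by positivity), Real.Gamma_add_one ha.ne']
  have h2 : σ ^ (-(a + (2 : ℕ))) = σ ^ (-a) / σ ^ 2 := by
    have : -(a + ((2 : ℕ) : ℝ)) = -a - ((2 : ℕ) : ℝ) := by ring
    rw [this, Real.rpow_sub hσ, Real.rpow_natCast]
  rw [h1, h2]; ring

/-- the last step, abstract integers -/
theorem core2 {N X0 Y0 X1 X1' Y1 X2 X2' Y2 Y2' : ℝ} {nL cS S2 S3 r1 r3 g1 r4 r5 g2 : ℕ}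
    (p0 : 0 ≤ X0) (p0' : 0 ≤ Y0) (p1 : 0 ≤ X1) (p1' : 0 ≤ X1') (p2 : 0 ≤ Y1) (p3 : 0 ≤ X2)
    (p4 : 0 ≤ X2') (p5 : 0 ≤ Y2) (p6 : 0 ≤ Y2')
    (hcS : 2 ^ 60 * X0 ≤ cS) (s2 : 2 ^ 60 * Y0 ≤ S2) (s3 : 2 ^ 60 * Y1 ≤ S3)
    (i1 : 2 ^ 60 * X1 ≤ r1) (i3 : 2 ^ 60 * X1' ≤ r3) (ig1 : 2 ^ 60 * Y2 ≤ g1)
    (i4 : 2 ^ 60 * X2 ≤ r4) (i5 : 2 ^ 60 * X2' ≤ r5) (ig2 : 2 ^ 60 * Y2' ≤ g2)
    (en : (nL : ℝ) ≤ 2 ^ 60 * N) (en0 : 0 < nL) :
    ((X0 + Y0) / N ≤ (cd (Nat.shiftLeft (nmin (Nat.add cS S2) S3) 40) nL : ℕ) / 2 ^ 40 ∨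
      Y1 / N ≤ (cd (Nat.shiftLeft (nmin (Nat.add cS S2) S3) 40) nL : ℕ) / 2 ^ 40) ∧
    ((X1 + X1') / (64 * N) ≤
        (cd (Nat.shiftLeft (nmin (Nat.add r1 r3) g1) 40) (Nat.mul 64 nL) : ℕ) / 2 ^ 40 ∨
      Y2 / (64 * N) ≤
        (cd (Nat.shiftLeft (nmin (Nat.add r1 r3) g1) 40) (Nat.mul 64 nL) : ℕ) / 2 ^ 40) ∧
    (((X2 + X2') + (X1 + X1')) / (8192 * N) ≤
        (cd (Nat.shiftLeft (nmin (Nat.add (Nat.add r4 r5) (Nat.add r1 r3)) (Nat.add g2 g1)) 40)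
          (Nat.mul 8192 nL) : ℕ) / 2 ^ 40 ∨
      (Y2' + Y2) / (8192 * N) ≤
        (cd (Nat.shiftLeft (nmin (Nat.add (Nat.add r4 r5) (Nat.add r1 r3)) (Nat.add g2 g1)) 40)
          (Nat.mul 8192 nL) : ℕ) / 2 ^ 40) := by
  have nadd : ∀ x y : ℕ, ((Nat.add x y : ℕ) : ℝ) = x + y := fun x y => Nat.cast_add x y
  refine ⟨?_, ?_, ?_⟩
  · rw [nmin_eq]
    rcases le_total (Nat.add cS S2) S3 with h | h
    · left
      rw [min_eq_left h]
      have := stepN (X := X0 + Y0) (N := N) (D := 1) (m := Nat.add cS S2) (nL := nL) (d := 1)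
        (by positivity) (by rw [nadd]; linarith) en0 en (by norm_num) (by norm_num)
      rw [one_mul] at this
      have e1 : Nat.mul 1 nL = nL := Nat.one_mul nL
      rwa [e1] at this
    · right
      rw [min_eq_right h]
      have := stepN (X := Y1) (N := N) (D := 1) (m := S3) (nL := nL) (d := 1)
        p2 s3 en0 en (by norm_num) (by norm_num)
      rw [one_mul] at this
      have e1 : Nat.mul 1 nL = nL := Nat.one_mul nL
      rwa [e1] at this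
  · rw [nmin_eq]
    rcases le_total (Nat.add r1 r3) g1 with h | h
    · left
      rw [min_eq_left h]
      exact stepN (by positivity) (by rw [nadd]; linarith) en0 en (by norm_num) (by norm_num)
    · right
      rw [min_eq_right h]
      exact stepN p5 ig1 en0 en (by norm_num) (by norm_num)
  · rw [nmin_eq]
    rcases le_total (Nat.add (Nat.add r4 r5) (Nat.add r1 r3)) (Nat.add g2 g1) with h | h
    · left
      rw [min_eq_left h]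
      exact stepN (by positivity) (by rw [nadd, nadd, nadd]; linarith) en0 en (by norm_num)
        (by norm_num)
    · right
      rw [min_eq_right h]
      exact stepN (by positivity) (by rw [nadd]; linarith) en0 en (by norm_num) (by norm_num)

/-- the integer part -/
theorem core {a b c W N x1 x2 x3 : ℝ} {a1 n1 n2 w nL cS S2 S3 : ℕ} (ha0 : 0 < a) (hb0 : 0 < b)
    (hc0 : 0 ≤ c) (hW0 : 0 < W) (hx1 : 0 ≤ x1) (hx2 : 0 ≤ x2) (hx3 : 0 ≤ x3)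
    (hcS : 2 ^ 60 * (c * x1) ≤ cS) (s2 : 2 ^ 60 * x2 ≤ S2) (s3 : 2 ^ 60 * x3 ≤ S3)
    (ya : a ≤ (n1 : ℝ) / a1) (yb : b ≤ (n2 : ℝ) / a1) (yq : a + 1 ≤ ((8192 : ℕ) : ℝ) / a1)
    (y2q : b + 1 ≤ ((16384 : ℕ) : ℝ) / a1) (ew : (w : ℝ) ≤ 2 ^ 60 * W) (hw0 : 0 < w)
    (en : (nL : ℝ) ≤ 2 ^ 60 * N) (en0 : 0 < nL) :
    ((c * x1 + x2) / N ≤ (cd (Nat.shiftLeft (nmin (Nat.add cS S2) S3) 40) nL : ℕ) / 2 ^ 40 ∨
      x3 / N ≤ (cd (Nat.shiftLeft (nmin (Nat.add cS S2) S3) 40) nL : ℕ) / 2 ^ 40) ∧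
    ((a * (c * x1) + b * x2 / W) / (64 * N) ≤
        (cd (Nat.shiftLeft (nmin (Nat.add (cd (Nat.mul cS n1) a1)
          (cd (Nat.shiftLeft (cd (Nat.mul S2 n2) a1) 60) w))
          (cd (Nat.shiftLeft (cd (Nat.mul S3 n1) a1) 60) w)) 40) (Nat.mul 64 nL) : ℕ) / 2 ^ 40 ∨
      (a * x3 / W) / (64 * N) ≤
        (cd (Nat.shiftLeft (nmin (Nat.add (cd (Nat.mul cS n1) a1)
          (cd (Nat.shiftLeft (cd (Nat.mul S2 n2) a1) 60) w))
          (cd (Nat.shiftLeft (cd (Nat.mul S3 n1) a1) 60) w)) 40) (Nat.mul 64 nL) : ℕ) / 2 ^ 40) ∧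
    ((((a + 1) * (a * (c * x1)) + (b + 1) * (b * x2) / W / W) + (a * (c * x1) + b * x2 / W)) /
        (8192 * N) ≤
        (cd (Nat.shiftLeft (nmin (Nat.add (Nat.add (cd (Nat.mul (cd (Nat.mul cS n1) a1) 8192) a1)
            (cd (Nat.shiftLeft (cd (Nat.shiftLeft (cd (Nat.mul (cd (Nat.mul S2 n2) a1) 16384) a1)
              60) w) 60) w)) (Nat.add (cd (Nat.mul cS n1) a1)
          (cd (Nat.shiftLeft (cd (Nat.mul S2 n2) a1) 60) w)))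
          (Nat.add (cd (Nat.shiftLeft (cd (Nat.mul (cd (Nat.shiftLeft (cd (Nat.mul S3 n1) a1) 60) w)
              8192) a1) 60) w) (cd (Nat.shiftLeft (cd (Nat.mul S3 n1) a1) 60) w))) 40)
          (Nat.mul 8192 nL) : ℕ) / 2 ^ 40 ∨
      ((a + 1) * (a * x3 / W) / W + a * x3 / W) / (8192 * N) ≤
        (cd (Nat.shiftLeft (nmin (Nat.add (Nat.add (cd (Nat.mul (cd (Nat.mul cS n1) a1) 8192) a1)
            (cd (Nat.shiftLeft (cd (Nat.shiftLeft (cd (Nat.mul (cd (Nat.mul S2 n2) a1) 16384) a1)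
              60) w) 60) w)) (Nat.add (cd (Nat.mul cS n1) a1)
          (cd (Nat.shiftLeft (cd (Nat.mul S2 n2) a1) 60) w)))
          (Nat.add (cd (Nat.shiftLeft (cd (Nat.mul (cd (Nat.shiftLeft (cd (Nat.mul S3 n1) a1) 60) w)
              8192) a1) 60) w) (cd (Nat.shiftLeft (cd (Nat.mul S3 n1) a1) 60) w))) 40)
          (Nat.mul 8192 nL) : ℕ) / 2 ^ 40) := by
  have i1 : 2 ^ 60 * (a * (c * x1)) ≤ (cd (Nat.mul cS n1) a1 : ℕ) := stepM (by positivity) hcS ya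
  have i2 : 2 ^ 60 * (b * x2) ≤ (cd (Nat.mul S2 n2) a1 : ℕ) := stepM hx2 s2 yb
  have i3 : 2 ^ 60 * (b * x2 / W) ≤ (cd (Nat.shiftLeft (cd (Nat.mul S2 n2) a1) 60) w : ℕ) :=
    stepD (by positivity) i2 hw0 ew
  have ig1 : 2 ^ 60 * (a * x3 / W) ≤ (cd (Nat.shiftLeft (cd (Nat.mul S3 n1) a1) 60) w : ℕ) :=
    stepD (by positivity) (stepM hx3 s3 ya) hw0 ew
  have i4 : 2 ^ 60 * ((a + 1) * (a * (c * x1))) ≤
      (cd (Nat.mul (cd (Nat.mul cS n1) a1) 8192) a1 : ℕ) := stepM (by positivity) i1 yq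
  have i5 : 2 ^ 60 * ((b + 1) * (b * x2) / W / W) ≤
      (cd (Nat.shiftLeft (cd (Nat.shiftLeft (cd (Nat.mul (cd (Nat.mul S2 n2) a1) 16384) a1)
              60) w) 60) w : ℕ) :=
    stepD (by positivity) (stepD (by positivity) (stepM (by positivity) i2 y2q) hw0 ew) hw0 ew
  have ig2 : 2 ^ 60 * ((a + 1) * (a * x3 / W) / W) ≤
      (cd (Nat.shiftLeft (cd (Nat.mul (cd (Nat.shiftLeft (cd (Nat.mul S3 n1) a1) 60) w)
              8192) a1) 60) w : ℕ) :=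
    stepD (by positivity) (stepM (by positivity) ig1 yq) hw0 ew
  exact core2 (by positivity) hx2 (by positivity) (by positivity) hx3 (by positivity)
    (by positivity) (by positivity) (by positivity) hcS s2 s3 i1 i3 ig1 i4 i5 ig2 en en0

/-- the values of `AA`, `AB` -/
theorem vals {θ : ℝ} {T W N c x1 x2 x3 : ℝ} (ha0 : 0 < 1 / θ - 1) (hb0 : 0 < 2 / θ - 1)
    (hT0 : 0 < T) (hW : W = Real.sin (Real.pi * θ / 2)) (hN : N = Nn θ) (hW0 : 0 < W) (hN0 : 0 < N)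
    (hc : c = |Real.cos (Real.pi * (1 / θ - 1) / 2)|)
    (q1 : x1 = Real.Gamma (1 / θ - 1) * T ^ (-(1 / θ - 1)))
    (q2 : x2 = Real.Gamma (2 / θ - 1) * (T * W) ^ (-(2 / θ - 1)))
    (q3 : x3 = Real.Gamma (1 / θ - 1) * (T * W) ^ (-(1 / θ - 1))) :
    AA θ 0 T = (c * x1 + x2) / N ∧ AB θ 0 T = x3 / N ∧
    AA θ 1 T * T / 64 = ((1 / θ - 1) * (c * x1) + (2 / θ - 1) * x2 / W) / (64 * N) ∧
    AB θ 1 T * T / 64 = ((1 / θ - 1) * x3 / W) / (64 * N) ∧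
    (AA θ 2 T + AA θ 1 T / T) * T ^ 2 / (2 * 64 ^ 2) =
      (((1 / θ - 1 + 1) * ((1 / θ - 1) * (c * x1)) + (2 / θ - 1 + 1) * ((2 / θ - 1) * x2) / W / W) +
        ((1 / θ - 1) * (c * x1) + (2 / θ - 1) * x2 / W)) / (8192 * N) ∧
    (AB θ 2 T + AB θ 1 T / T) * T ^ 2 / (2 * 64 ^ 2) =
      ((1 / θ - 1 + 1) * ((1 / θ - 1) * x3 / W) / W + (1 / θ - 1) * x3 / W) / (8192 * N) := by
  have hTW0 : 0 < T * W := mul_pos hT0 hW0
  have A0 : AA θ 0 T = (c * x1 + x2) / N := by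
    unfold AA
    rw [← hc, ← hW, ← hN, mul_assoc, gp0, gp0, ← q1, ← q2]
  have B0 : AB θ 0 T = x3 / N := by
    unfold AB
    rw [← hW, ← hN, gp0, ← q3]
  have A1 : AA θ 1 T = (c * ((1 / θ - 1) * x1 / T) + (2 / θ - 1) * x2 / (T * W)) / N := by
    unfold AA
    rw [← hc, ← hW, ← hN, mul_assoc, gp1 ha0 hT0, gp1 hb0 hTW0, ← q1, ← q2]
  have B1 : AB θ 1 T = ((1 / θ - 1) * x3 / (T * W)) / N := by
    unfold AB
    rw [← hW, ← hN, gp1 ha0 hTW0, ← q3]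
  have A2 : AA θ 2 T = (c * ((1 / θ - 1 + 1) * ((1 / θ - 1) * x1) / T ^ 2) +
      (2 / θ - 1 + 1) * ((2 / θ - 1) * x2) / (T * W) ^ 2) / N := by
    unfold AA
    rw [← hc, ← hW, ← hN, mul_assoc, gp2 ha0 hT0, gp2 hb0 hTW0, ← q1, ← q2]
  have B2 : AB θ 2 T = ((1 / θ - 1 + 1) * ((1 / θ - 1) * x3) / (T * W) ^ 2) / N := by
    unfold AB
    rw [← hW, ← hN, gp2 ha0 hTW0, ← q3]
  rw [A0, B0, A1, B1, A2, B2]
  generalize 1 / θ - 1 = a
  generalize 2 / θ - 1 = b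
  refine ⟨rfl, rfl, ?_, ?_, ?_, ?_⟩
  · field_simp
  · field_simp
  · field_simp
    ring
  · field_simp
    ring

theorem bF : BF := by
  intro hN hA hB hC hD hE hSN hTP a1 a2 h1 h12 h2 θ ht1 ht2 g hg1 hg2 hg3
  obtain ⟨et, et8, ew, ew38, en, en0, ec, eA, eB, eC, eD, z1, z2, z3, z4, z5, z6⟩ :=
    hE hN hA hB hD hSN a1 a2 h1 h12 h2 θ ht1 ht2
  have hw0 : 0 < sinL a1 := lt_of_lt_of_le (Nat.two_pow_pos 58) (hD a1 h1 (by omega)).2
  have ha1 : (0 : ℝ) < a1 := by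
    have : 0 < a1 := by omega
    exact_mod_cast this
  have hθ0 : 0 < θ := lt_of_lt_of_le (div_pos ha1 (by norm_num)) ht1
  have hθ14 : 1 / 4 ≤ θ := by
    refine le_trans ?_ ht1
    rw [div_le_div_iff₀ (by norm_num) (by norm_num)]
    have : (2048 : ℝ) ≤ a1 := by exact_mod_cast h1
    linarith
  have hθ12 : θ < 1 / 2 := by
    refine lt_of_le_of_lt ht2 ?_
    rw [div_lt_div_iff₀ (by norm_num) (by norm_num)]
    have : (a2 : ℝ) < 4096 := by exact_mod_cast h2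
    linarith
  have hq : 1 / θ ≤ 8192 / a1 := by
    rw [div_le_div_iff₀ hθ0 ha1]
    rw [div_le_iff₀ (by norm_num)] at ht1
    linarith
  have hq2 : 2 < 1 / θ := by rw [lt_div_iff₀ hθ0]; linarith
  have ha0 : 0 < 1 / θ - 1 := by linarith
  have h2θ : 2 / θ = 2 * (1 / θ) := by ring
  have hb0 : 0 < 2 / θ - 1 := by rw [h2θ]; linarith
  have ya : 1 / θ - 1 ≤ ((Nat.sub 8192 a1 : ℕ) : ℝ) / a1 := by
    have : ((Nat.sub 8192 a1 : ℕ) : ℝ) = 8192 - a1 := by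
      show ((8192 - a1 : ℕ) : ℝ) = _
      rw [Nat.cast_sub (by omega)]; norm_num
    rw [this, sub_div, div_self ha1.ne']
    linarith
  have yb : 2 / θ - 1 ≤ ((Nat.sub 16384 a1 : ℕ) : ℝ) / a1 := by
    have : ((Nat.sub 16384 a1 : ℕ) : ℝ) = 16384 - a1 := by
      show ((16384 - a1 : ℕ) : ℝ) = _
      rw [Nat.cast_sub (by omega)]; norm_num
    rw [this, sub_div, div_self ha1.ne', h2θ]
    have : (16384 : ℝ) / a1 = 2 * (8192 / a1) := by ring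
    linarith
  have yq : 1 / θ - 1 + 1 ≤ ((8192 : ℕ) : ℝ) / a1 := by
    rw [sub_add_cancel]; exact_mod_cast hq
  have y2q : 2 / θ - 1 + 1 ≤ ((16384 : ℕ) : ℝ) / a1 := by
    rw [sub_add_cancel, h2θ]
    have : ((16384 : ℕ) : ℝ) / a1 = 2 * (8192 / a1) := by push_cast; ring
    rw [this]; linarith
  have hT0 : 0 < tk θ 64 := lt_of_lt_of_le (by norm_num) et8
  have hW0 : 0 < Real.sin (Real.pi * θ / 2) := lt_of_lt_of_le (by norm_num) ew38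
  have hTW : 1 ≤ tk θ 64 * Real.sin (Real.pi * θ / 2) :=
    calc (1 : ℝ) ≤ 8 * 0.38 := by norm_num
      _ ≤ _ := mul_le_mul et8 ew38 (by norm_num) hT0.le
  have hu : ((Nat.shiftRight (Nat.mul (tLo a1 a2) (sinL a1)) 60 : ℕ) : ℝ) ≤
      2 ^ 60 * (tk θ 64 * Real.sin (Real.pi * θ / 2)) := by
    refine (shr_le _ _).trans ?_
    have : ((Nat.mul (tLo a1 a2) (sinL a1) : ℕ) : ℝ) = (tLo a1 a2 : ℝ) * sinL a1 :=
      Nat.cast_mul _ _
    rw [this, div_le_iff₀ (pow_pos (by norm_num) _)]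
    calc (tLo a1 a2 : ℝ) * sinL a1 ≤
        (2 ^ 60 * tk θ 64) * (2 ^ 60 * Real.sin (Real.pi * θ / 2)) :=
          mul_le_mul et ew (Nat.cast_nonneg _) (mul_nonneg (pow_nonneg (by norm_num) _) hT0.le)
      _ = _ := by ring
  have s1 := hC hN hA hB (tLo a1 a2) _ _ z1 z2 (lt_of_le_of_lt z3 (by norm_num)) (tk θ 64) _
    (le_trans (by norm_num) et8) et eA eB
  have s2 := hC hN hA hB _ _ _ (le_trans (by norm_num) z4) z5 (lt_of_le_of_lt z6 (by norm_num))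
    (tk θ 64 * Real.sin (Real.pi * θ / 2)) _ hTW hu eC eD
  have s3 := hC hN hA hB _ _ _ z1 z2 (lt_of_le_of_lt z3 (by norm_num))
    (tk θ 64 * Real.sin (Real.pi * θ / 2)) _ hTW hu eA eB
  have ga : 0 < Real.Gamma (1 / θ - 1) := Real.Gamma_pos_of_pos ha0
  have gb : 0 < Real.Gamma (2 / θ - 1) := Real.Gamma_pos_of_pos hb0
  have hTW0 : 0 < tk θ 64 * Real.sin (Real.pi * θ / 2) := mul_pos hT0 hW0
  have hx1 : 0 ≤ Real.Gamma (1 / θ - 1) * tk θ 64 ^ (-(1 / θ - 1)) :=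
    mul_nonneg ga.le (Real.rpow_nonneg hT0.le _)
  have hx2 : 0 ≤ Real.Gamma (2 / θ - 1) *
      (tk θ 64 * Real.sin (Real.pi * θ / 2)) ^ (-(2 / θ - 1)) :=
    mul_nonneg gb.le (Real.rpow_nonneg hTW0.le _)
  have hx3 : 0 ≤ Real.Gamma (1 / θ - 1) *
      (tk θ 64 * Real.sin (Real.pi * θ / 2)) ^ (-(1 / θ - 1)) :=
    mul_nonneg ga.le (Real.rpow_nonneg hTW0.le _)
  have hcS : 2 ^ 60 * (|Real.cos (Real.pi * (1 / θ - 1) / 2)| *
      (Real.Gamma (1 / θ - 1) * tk θ 64 ^ (-(1 / θ - 1)))) ≤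
      (cd (Nat.mul (csU a1 a2) (gsM (tLo a1 a2) (pA a2) (pB a1))) (Nat.shiftLeft 1 60) : ℕ) := by
    refine le_trans ?_ (cd_ge _ _)
    have e1 : ((Nat.mul (csU a1 a2) (gsM (tLo a1 a2) (pA a2) (pB a1)) : ℕ) : ℝ) =
        (csU a1 a2 : ℝ) * gsM (tLo a1 a2) (pA a2) (pB a1) := Nat.cast_mul _ _
    have e2 : ((Nat.shiftLeft 1 60 : ℕ) : ℝ) = 2 ^ 60 := by rw [shl_cast]; norm_num
    rw [e1, e2, le_div_iff₀ (pow_pos (by norm_num) _)]
    calc (2 : ℝ) ^ 60 * (|Real.cos (Real.pi * (1 / θ - 1) / 2)| *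
      (Real.Gamma (1 / θ - 1) * tk θ 64 ^ (-(1 / θ - 1)))) * 2 ^ 60 =
        (2 ^ 60 * |Real.cos (Real.pi * (1 / θ - 1) / 2)|) *
          (2 ^ 60 * (Real.Gamma (1 / θ - 1) * tk θ 64 ^ (-(1 / θ - 1)))) := by ring
      _ ≤ (csU a1 a2 : ℝ) * gsM (tLo a1 a2) (pA a2) (pB a1) :=
        mul_le_mul ec s1 (mul_nonneg (pow_nonneg (by norm_num) _) hx1) (Nat.cast_nonneg _)
  have hNn : 0 < Nn θ := by
    have h3 : (0 : ℝ) < (Nat.shiftRight (Nat.mul a1 (gamL (Nat.sub 8192 a1))) 13 : ℕ) := by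
      exact_mod_cast en0
    by_contra h
    have h4 : (2 : ℝ) ^ 60 * Nn θ ≤ 0 :=
      mul_nonpos_of_nonneg_of_nonpos (pow_nonneg (by norm_num) _) (not_lt.mp h)
    linarith
  obtain ⟨A0, B0, A1, B1, A2, B2⟩ := vals (θ := θ) (T := tk θ 64) ha0 hb0 hT0 rfl rfl hW0 hNn rfl
    rfl rfl rfl
  obtain ⟨F0, F1, F2⟩ := core ha0 hb0 (abs_nonneg (Real.cos (Real.pi * (1 / θ - 1) / 2))) hW0 hx1 hx2
    hx3 hcS s2 s3 ya yb yq y2q ew hw0 en en0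
  rw [← A0, ← B0] at F0
  rw [← A1, ← B1] at F1
  rw [← A2, ← B2] at F2
  simp only [cBd, sq_eq]
  refine ⟨hg1, hg2, ?_, ?_, ?_⟩
  · intro x hx
    obtain ⟨k1, k2, -⟩ := hTP θ hθ14 hθ12 g hg3 x hx
    have hp : 0 ≤ (64 / x) ^ g := Real.rpow_nonneg (div_nonneg (by norm_num) (by linarith)) _
    rcases F0 with F | F
    · exact k1.trans (mul_le_mul_of_nonneg_right F hp)
    · exact k2.trans (mul_le_mul_of_nonneg_right F hp)
  · intro x hx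
    obtain ⟨-, -, k1, k2, -⟩ := hTP θ hθ14 hθ12 g hg3 x hx
    have hp : 0 ≤ (64 / x) ^ (g + 1) := Real.rpow_nonneg (div_nonneg (by norm_num) (by linarith)) _
    rcases F1 with F | F
    · exact k1.trans (mul_le_mul_of_nonneg_right F hp)
    · exact k2.trans (mul_le_mul_of_nonneg_right F hp)
  · intro x hx
    obtain ⟨-, -, -, -, k1, k2⟩ := hTP θ hθ14 hθ12 g hg3 x hx
    have hp : 0 ≤ (64 / x) ^ (g + 1) := Real.rpow_nonneg (div_nonneg (by norm_num) (by linarith)) _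
    rcases F2 with F | F
    · exact k1.trans (mul_le_mul_of_nonneg_right F hp)
    · exact k2.trans (mul_le_mul_of_nonneg_right F hp)

end Pool.Agent.Helper63.BS
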